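import Mathlib
import Pool.Agent.H23.RE
import Pool.Agent.H23.SPair

set_option autoImplicit false

namespace Pool.Agent.Results.MP_9a6b8c_lc.PcContiguous

open Pool.Agent.H23 Pool.Agent.H23.RE

/-- `Ψ^B`: the pair `(x, u)` is an axiom putting `x` in when `D_u ⊆ B`, where `D_u` is the set of
positions of the binary digits `1` of `u` (canonical index). -/
def app (Ψ : Set (ℕ × ℕ)) (B : Set ℕ) : Set ℕ :=
  {x | ∃ u, (x, u) ∈ Ψ ∧ ∀ i, u.testBit i = true → i ∈ B}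

/-- The reducibility given by a class `r` of operators. -/
def Red (r : Set (Set (ℕ × ℕ))) (A B : Set ℕ) : Prop := ∃ Ψ ∈ r, A = app Ψ B

/-- `r`-equivalence. -/
def Eqv (r : Set (Set (ℕ × ℕ))) (A B : Set ℕ) : Prop := Red r A B ∧ Red r B A

/-- A proper e-reducibility: a class of enumeration operators whose relation is reflexive and
transitive and whose degree of `∅` contains every r.e. set. -/
def ProperERed (r : Set (Set (ℕ × ℕ))) : Prop :=
  (∀ Ψ ∈ r, REPred (· ∈ Ψ)) ∧ (∀ A, Red r A A) ∧ (∀ A B C, Red r A B → Red r B C → Red r A C) ∧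
    ∀ W : Set ℕ, REPred (· ∈ W) → Eqv r W ∅

/-- pc-operators: every `ε_x` has at most one member. -/
def pcOp : Set (Set (ℕ × ℕ)) :=
  {Ψ | REPred (· ∈ Ψ) ∧ ∀ x u v, (x, u) ∈ Ψ → (x, v) ∈ Ψ → u = v}

/-- Operators that are both pc-operators and s-operators. -/
def spcOp : Set (Set (ℕ × ℕ)) :=
  {Ψ | Ψ ∈ pcOp ∧ ∀ x u, (x, u) ∈ Ψ → ∀ i j, u.testBit i = true → u.testBit j = true → i = j}

def idOp : Set (ℕ × ℕ) := {p | (p.2 == 2 ^ p.1) = true}

theorem id_mem : idOp ∈ spcOp := by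
  refine ⟨⟨re_prim (by fun_prop), fun x u v h1 h2 => ?_⟩, fun x u h i j h1 h2 => ?_⟩
  · simp only [idOp, Set.mem_ofPred_eq, beq_iff_eq] at h1 h2
    rw [h1, h2]
  · simp only [idOp, Set.mem_ofPred_eq, beq_iff_eq] at h
    subst h
    simp only [Nat.testBit_two_pow, decide_eq_true_eq] at h1 h2
    omega

theorem app_id (A : Set ℕ) : app idOp A = A := by
  ext x
  simp [app, idOp, Nat.testBit_two_pow]

def cmp (Ψ Φ : Set (ℕ × ℕ)) : Set (ℕ × ℕ) :=
  {p | ∃ u, (p.1, u) ∈ Ψ ∧ (∀ i, u.testBit i = true → ∃ v, (i, v) ∈ Φ ∧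
      ∀ j, v.testBit j = true → p.2.testBit j = true) ∧
    ∀ j, p.2.testBit j = true → ∃ i, u.testBit i = true ∧ ∃ v, (i, v) ∈ Φ ∧ v.testBit j = true}

theorem cmp_re {Ψ Φ : Set (ℕ × ℕ)} (h1 : REPred (· ∈ Ψ)) (h2 : REPred (· ∈ Φ)) :
    REPred (· ∈ cmp Ψ Φ) := by
  unfold cmp
  simp only [Set.mem_ofPred_eq]
  repeat' first
    | exact re_comp' h1 _ (by fun_prop)
    | exact re_comp' h2 _ (by fun_prop)
    | exact re_prim (by fun_prop)
    | apply re_ex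
    | apply re_and
    | apply re_bits
    | fun_prop

theorem exists_or (u : ℕ) (g : ℕ → ℕ) : ∃ w : ℕ, ∀ j, w.testBit j = true ↔
    ∃ i < u, (g i).testBit j = true := by
  induction u with
  | zero => exact ⟨0, by simp⟩
  | succ u ih =>
    obtain ⟨w, hw⟩ := ih
    refine ⟨w ||| g u, fun j => ?_⟩
    rw [Nat.testBit_or, Bool.or_eq_true, hw, Nat.exists_lt_succ_right]

theorem app_cmp (Ψ Φ : Set (ℕ × ℕ)) (C : Set ℕ) :
    app (cmp Ψ Φ) C = app Ψ (app Φ C) := by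
  ext x
  constructor
  · rintro ⟨w, ⟨u, a, b, _⟩, hw⟩
    exact ⟨u, a, fun i hi => let ⟨v, c, d⟩ := b i hi; ⟨v, c, fun j hj => hw j (d j hj)⟩⟩
  · rintro ⟨u, a, b⟩
    classical
    choose! g hg1 hg2 using b
    obtain ⟨w, hw⟩ := exists_or u fun i => if u.testBit i = true then g i else 0
    have hw' : ∀ j, w.testBit j = true ↔ ∃ i, u.testBit i = true ∧ (g i).testBit j = true := by
      intro j
      rw [hw]
      constructor
      · rintro ⟨i, _, h⟩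
        by_cases hi : u.testBit i = true
        · exact ⟨i, hi, by simpa [hi] using h⟩
        · simp [hi] at h
      · rintro ⟨i, h1, h2⟩
        exact ⟨i, lt_of_testBit h1, by simpa [h1] using h2⟩
    refine ⟨w, ⟨u, a, fun i hi => ⟨g i, hg1 i hi, fun j hj => (hw' j).2 ⟨i, hi, hj⟩⟩,
      fun j hj => ?_⟩, fun j hj => ?_⟩
    · obtain ⟨i, h1, h2⟩ := (hw' j).1 hj
      exact ⟨i, h1, g i, hg1 i h1, h2⟩
    · obtain ⟨i, h1, h2⟩ := (hw' j).1 hj
      exact hg2 i h1 j h2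

theorem cmp_pc {Ψ Φ : Set (ℕ × ℕ)} (h1 : Ψ ∈ pcOp) (h2 : Φ ∈ pcOp) : cmp Ψ Φ ∈ pcOp := by
  refine ⟨cmp_re h1.1 h2.1, ?_⟩
  have : ∀ x w w', (x, w) ∈ cmp Ψ Φ → (x, w') ∈ cmp Ψ Φ → ∀ j, w.testBit j = true →
      w'.testBit j = true := by
    rintro x w w' ⟨u, a, _, c⟩ ⟨u', a', b', _⟩ j hj
    obtain rfl := h1.2 _ _ _ a a'
    obtain ⟨i, d, v, e, f⟩ := c j hj
    obtain ⟨v', e', f'⟩ := b' i d
    obtain rfl := h2.2 _ _ _ e e'
    exact f' j f
  intro x w w' a b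
  exact Nat.eq_of_testBit_eq fun j => Bool.eq_iff_iff.2 ⟨this _ _ _ a b j, this _ _ _ b a j⟩

theorem cmp_spc {Ψ Φ : Set (ℕ × ℕ)} (h1 : Ψ ∈ spcOp) (h2 : Φ ∈ spcOp) : cmp Ψ Φ ∈ spcOp := by
  refine ⟨cmp_pc h1.1 h2.1, ?_⟩
  rintro x w ⟨u, a, _, c⟩ j j' hj hj'
  obtain ⟨i, d, v, e, f⟩ := c j hj
  obtain ⟨i', d', v', e', f'⟩ := c j' hj'
  obtain rfl := h1.2 _ _ a _ _ d d'
  obtain rfl := h2.1.2 _ _ _ e e'
  exact h2.2 _ _ e _ _ f f'

theorem const_red (W : Set ℕ) (h : REPred (· ∈ W)) (B : Set ℕ) : Red spcOp W B := by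
  refine ⟨{p | p.1 ∈ W ∧ (p.2 == 0) = true}, ⟨⟨re_and (re_comp' h _ (by fun_prop))
    (re_prim (by fun_prop)), fun x u v a b => ?_⟩, fun x u a i j b => ?_⟩, ?_⟩
  · simp only [Set.mem_ofPred_eq, beq_iff_eq] at a b
    rw [a.2, b.2]
  · simp only [Set.mem_ofPred_eq, beq_iff_eq] at a
    simp [a.2] at b
  · ext x
    simp [app]

theorem red_mono {A B : Set ℕ} (h : Red spcOp A B) : Red pcOp A B :=
  let ⟨Ψ, a, b⟩ := h; ⟨Ψ, a.1, b⟩

theorem re_empty : REPred (· ∈ (∅ : Set ℕ)) :=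
  (re_prim (f := fun _ : ℕ => false) (by fun_prop)).of_eq (by simp)

theorem proper_spc : ProperERed spcOp := by
  refine ⟨fun Ψ h => h.1.1, fun A => ⟨_, id_mem, (app_id A).symm⟩, ?_,
    fun W h => ⟨const_red W h _, const_red _ re_empty _⟩⟩
  rintro A B C ⟨Ψ, a, rfl⟩ ⟨Φ, b, rfl⟩
  exact ⟨_, cmp_spc a b, (app_cmp _ _ C).symm⟩

theorem proper_pc : ProperERed pcOp := by
  refine ⟨fun Ψ h => h.1, fun A => ⟨_, id_mem.1, (app_id A).symm⟩, ?_,
    fun W h => ⟨red_mono (const_red W h _), red_mono (const_red _ re_empty _)⟩⟩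
  rintro A B C ⟨Ψ, a, rfl⟩ ⟨Φ, b, rfl⟩
  exact ⟨_, cmp_pc a b, (app_cmp _ _ C).symm⟩

def le (n m : ℕ) : Bool := Nat.ble (n.unpair.1 * (m.unpair.2 + 1)) (m.unpair.1 * (n.unpair.2 + 1))

noncomputable def val (n : ℕ) : ℝ := (n.unpair.1 : ℝ) / (n.unpair.2 + 1)

theorem le_iff (n m : ℕ) : le n m = true ↔ val n ≤ val m := by
  unfold le val
  rw [Nat.ble_eq, div_le_div_iff₀ (by positivity) (by positivity)]
  exact_mod_cast Iff.rfl

def cut (a : ℝ) : Set ℕ := {n | val n < a}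

theorem key (a : ℝ) {Φ Ψ : Set (ℕ × ℕ)} (hΦ : Φ ∈ spcOp) (hΨ : Ψ ∈ pcOp) :
    Red spcOp (app Ψ (app Φ (cut a))) (app Φ (cut a)) := by
  let p : ℕ → ℕ → Prop := fun x w => ∃ u, (x, u) ∈ Ψ ∧ (((u == 0) = true ∧ (w == 0) = true) ∨
    ∃ i, (w == 2 ^ i) = true ∧ u.testBit i = true ∧ ∃ v, (i, v) ∈ Φ ∧
      ∀ j, u.testBit j = true → ∃ v', (j, v') ∈ Φ ∧
        ∀ b', v'.testBit b' = true → ∃ b, v.testBit b = true ∧ le b' b = true)
  have hp : REPred fun x : ℕ × ℕ => p x.1 x.2 := by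
    simp only [p]
    unfold le
    repeat' first
      | exact re_comp' hΨ.1 _ (by fun_prop)
      | exact re_comp' hΦ.1.1 _ (by fun_prop)
      | exact re_prim (by fun_prop)
      | apply re_ex
      | apply re_and
      | apply re_or
      | apply re_bits
      | fun_prop
  obtain ⟨q, q1, q2, q3, q4⟩ := uniformize hp
  have hsound : ∀ x w, p x w → ((∀ i, w.testBit i = true → i ∈ app Φ (cut a)) ↔
      x ∈ app Ψ (app Φ (cut a))) := by
    rintro x w ⟨u, h1, ⟨h2, h3⟩ | ⟨i, h2, h3, v, h4, h5⟩⟩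
    · obtain rfl : u = 0 := by simpa using h2
      obtain rfl : w = 0 := by simpa using h3
      exact ⟨fun _ => ⟨0, h1, by simp⟩, by simp⟩
    · obtain rfl : w = 2 ^ i := by simpa using h2
      constructor
      · intro h
        obtain ⟨v0, h6, h7⟩ := h i (by simp)
        obtain rfl := hΦ.1.2 _ _ _ h4 h6
        refine ⟨u, h1, fun j hj => ?_⟩
        obtain ⟨v', h8, h9⟩ := h5 j hj
        refine ⟨v', h8, fun b' hb' => ?_⟩
        obtain ⟨b, h10, h11⟩ := h9 b' hb'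
        exact lt_of_le_of_lt ((le_iff _ _).1 h11) (h7 b h10)
      · rintro ⟨u', h6, h7⟩ j hj
        obtain rfl := hΨ.2 _ _ _ h1 h6
        obtain rfl : i = j := by simpa [Nat.testBit_two_pow] using hj
        exact h7 i h3
  refine ⟨{z | q z.1 z.2}, ⟨⟨q1, q3⟩, fun x w h i j hi hj => ?_⟩, Set.ext fun x => ⟨?_, ?_⟩⟩
  · obtain ⟨u, _, ⟨_, h3⟩ | ⟨k, h2, _⟩⟩ := q2 x w h
    · obtain rfl : w = 0 := by simpa using h3
      simp at hi
    · obtain rfl : w = 2 ^ k := by simpa using h2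
      simp only [Nat.testBit_two_pow, decide_eq_true_eq] at hi hj
      omega
  · intro hx
    obtain ⟨u, h1, h2⟩ := id hx
    have : ∃ w, p x w := by
      by_cases hu : u = 0
      · exact ⟨0, u, h1, Or.inl (by simp [hu])⟩
      classical
      choose! g hg1 hg2 using h2
      let r : ℕ → ℝ := fun i => if h : ∃ b, (g i).testBit b = true then val h.choose else -1
      obtain ⟨i0, hi0⟩ := Nat.exists_testBit_of_ne_zero hu
      obtain ⟨i, hi, hmax⟩ := Finset.exists_max_image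
        ((Finset.range u).filter fun i => u.testBit i = true) r
        ⟨i0, by simp [hi0, lt_of_testBit hi0]⟩
      have hi' := (Finset.mem_filter.1 hi).2
      refine ⟨2 ^ i, u, h1, Or.inr ⟨i, by simp, hi', g i, hg1 i hi', fun j hj =>
        ⟨g j, hg1 j hj, fun b' hb' => ?_⟩⟩⟩
      have h3 := hmax j (by simp [hj, lt_of_testBit hj])
      have h4 : ∃ b, (g j).testBit b = true := ⟨b', hb'⟩
      have h5 : r j = val b' := by
        simp only [r, dif_pos h4]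
        rw [hΦ.2 _ _ (hg1 j hj) _ _ h4.choose_spec hb']
      have h6 : 0 ≤ val b' := by unfold val; positivity
      by_cases h7 : ∃ b, (g i).testBit b = true
      · refine ⟨h7.choose, h7.choose_spec, (le_iff _ _).2 ?_⟩
        simpa [h5, r, dif_pos h7] using h3
      · simp only [h5, r, dif_neg h7] at h3
        linarith
    obtain ⟨w, hw⟩ := this
    obtain ⟨w', hw'⟩ := q4 x w hw
    exact ⟨w', hw', (hsound x w' (q2 _ _ hw')).2 hx⟩
  · rintro ⟨w, h1, h2⟩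
    exact (hsound x w (q2 _ _ h1)).1 h2

theorem exists_cut : ∃ a : ℝ, ¬ REPred (· ∈ cut a) := by
  by_contra h
  push Not at h
  have hinj : Function.Injective fun t : ℝ => fun n => n ∈ cut (Real.exp t) := by
    have : ∀ s t : ℝ, s < t → ∃ n, n ∉ cut (Real.exp s) ∧ n ∈ cut (Real.exp t) := by
      intro s t hst
      obtain ⟨r, h1, h2⟩ := exists_rat_btwn (Real.exp_lt_exp.2 hst)
      have h3 : (0 : ℚ) < r := by exact_mod_cast (Real.exp_pos s).trans h1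
      have h4 : val (Nat.pair r.num.toNat (r.den - 1)) = r := by
        have h5 := r.den_pos
        have h6 : ((r.num.toNat : ℕ) : ℝ) = r.num := by
          exact_mod_cast Int.toNat_of_nonneg (Rat.num_pos.2 h3).le
        simp only [val, Nat.unpair_pair, h6]
        rw [Rat.cast_def]
        congr 1
        exact_mod_cast Nat.sub_add_cancel h5
      exact ⟨Nat.pair r.num.toNat (r.den - 1), by simp [cut, h4, h1.le], by simp [cut, h4, h2]⟩
    intro s t hst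
    rcases lt_trichotomy s t with h | h | h
    · obtain ⟨n, a, b⟩ := this s t h
      exact absurd ((congrFun hst n).mpr b) a
    · exact h
    · obtain ⟨n, a, b⟩ := this t s h
      exact absurd ((congrFun hst n).mp b) a
  have := (countable_re (α := ℕ)).preimage hinj
  exact Set.not_countable_univ (this.mono fun t _ => h _)

theorem distinct : ∃ A B, Red pcOp A B ∧ ¬ Red spcOp A B := by
  let C := {p : Finset ℕ × Finset ℕ // ∀ i ∈ p.1, i ∉ p.2}
  have : Countable spcOp := by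
    refine Set.Countable.to_subtype ((countable_re (α := ℕ × ℕ)).mono fun Ψ h => h.1.1)
  have : Nonempty spcOp := ⟨⟨_, id_mem⟩⟩
  obtain ⟨c, hc, hD⟩ := SPair.generic (C := C) (ι := spcOp)
    (fun p q => p.1.1 ⊆ q.1.1 ∧ p.1.2 ⊆ q.1.2) (fun p => ⟨le_rfl, le_rfl⟩)
    (fun p q r a b => ⟨a.1.trans b.1, a.2.trans b.2⟩) ⟨(∅, ∅), by simp⟩
    (fun Ψ q => ∃ x, (2 * x ∈ q.1.1 ∧ 2 * x + 1 ∈ q.1.1 ∧ ∀ u, (x, u) ∈ Ψ.1 →
      ∃ i, u.testBit i = true ∧ i ∈ q.1.2) ∨ ((2 * x ∈ q.1.2 ∨ 2 * x + 1 ∈ q.1.2) ∧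
        ∃ u, (x, u) ∈ Ψ.1 ∧ ∀ i, u.testBit i = true → i ∈ q.1.1)) (by
      rintro ⟨Ψ, hΨ⟩ ⟨⟨P, N⟩, h⟩
      simp only at h
      obtain ⟨x, hx⟩ : ∃ x, ∀ y, x ≤ y → y ∉ P ∧ y ∉ N := by
        refine ⟨(P ∪ N).sup id + 1, fun y hy => ⟨fun h => ?_, fun h => ?_⟩⟩
        · have := Finset.le_sup (f := id) (Finset.mem_union_left N h)
          simp only [id] at this hy; omega
        · have := Finset.le_sup (f := id) (Finset.mem_union_right P h)
          simp only [id] at this hy; omega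
      have h0 := hx (2 * x) (by omega)
      have h1 := hx (2 * x + 1) (by omega)
      by_cases h2 : ∀ u, (x, u) ∈ Ψ → ∃ i, u.testBit i = true ∧ i ∈ N
      · refine ⟨⟨(insert (2 * x) (insert (2 * x + 1) P), N), ?_⟩, ⟨?_, le_rfl⟩, x,
          Or.inl ⟨by simp, by simp, h2⟩⟩
        · simp only [Finset.mem_insert]
          rintro i (rfl | rfl | hi)
          exacts [h0.2, h1.2, h i hi]
        · exact (Finset.subset_insert _ _).trans (Finset.subset_insert _ _)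
      · push Not at h2
        obtain ⟨u, h3, h4⟩ := h2
        obtain ⟨y, hy1, hy2⟩ : ∃ y, (y = 2 * x ∨ y = 2 * x + 1) ∧ u.testBit y ≠ true := by
          by_contra h5
          push Not at h5
          have := hΨ.2 _ _ h3 _ _ (h5 _ (Or.inl rfl)) (h5 _ (Or.inr rfl))
          omega
        refine ⟨⟨(P ∪ (Finset.range u).filter fun i => u.testBit i = true, insert y N), ?_⟩,
          ⟨Finset.subset_union_left, Finset.subset_insert _ _⟩, x, Or.inr ⟨?_, u, h3, ?_⟩⟩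
        · simp only [Finset.mem_insert, Finset.mem_union, Finset.mem_filter, not_or]
          rintro i (hi | hi)
          · refine ⟨?_, h i hi⟩
            rintro rfl
            rcases hy1 with rfl | rfl
            exacts [h0.1 hi, h1.1 hi]
          · exact ⟨fun e => hy2 (e ▸ hi.2), h4 i hi.2⟩
        · rcases hy1 with rfl | rfl <;> simp
        · intro i hi
          simp [hi, lt_of_testBit hi])
  let B : Set ℕ := {y | ∃ n, y ∈ (c n).1.1}
  have hneg : ∀ n y, y ∈ (c n).1.2 → y ∉ B := by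
    rintro n y h ⟨m, hm⟩
    exact (c (max m n)).2 _ ((hc _ _ (le_max_left m n)).1 hm) ((hc _ _ (le_max_right m n)).2 h)
  let Ψ0 : Set (ℕ × ℕ) := {p | (p.2 == 3 * 2 ^ (2 * p.1)) = true}
  have h0 : ∀ x, x ∈ app Ψ0 B ↔ 2 * x ∈ B ∧ 2 * x + 1 ∈ B := by
    intro x
    have : ∀ i, (3 * 2 ^ (2 * x)).testBit i = true ↔ i = 2 * x ∨ i = 2 * x + 1 := by
      intro i
      rw [Nat.testBit_mul_two_pow, show 3 = 2 ^ 2 - 1 from rfl, Nat.testBit_two_pow_sub_one]
      simp only [Bool.and_eq_true, decide_eq_true_eq]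
      omega
    simp [app, Ψ0, this]
  refine ⟨app Ψ0 B, B, ⟨Ψ0, ⟨re_prim (by fun_prop), fun x u v a b => ?_⟩, rfl⟩, ?_⟩
  · simp only [Ψ0, Set.mem_ofPred_eq, beq_iff_eq] at a b
    rw [a, b]
  · rintro ⟨Ψ, hΨ, h⟩
    obtain ⟨n, x, ⟨h1, h2, h3⟩ | ⟨h1, u, h2, h3⟩⟩ := hD ⟨Ψ, hΨ⟩
    · have := (h0 x).2 ⟨⟨n, h1⟩, n, h2⟩
      rw [h] at this
      obtain ⟨u, h4, h5⟩ := this
      obtain ⟨i, h6, h7⟩ := h3 u h4
      exact hneg n i h7 (h5 i h6)
    · have : x ∈ app Ψ B := ⟨u, h2, fun i hi => ⟨n, h3 i hi⟩⟩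
      rw [← h, h0] at this
      rcases h1 with h1 | h1
      exacts [hneg n _ h1 this.1, hneg n _ h1 this.2]

theorem result :
    ProperERed spcOp ∧ ProperERed pcOp ∧ (∀ A B, Red spcOp A B → Red pcOp A B) ∧
      (∃ A B, Red pcOp A B ∧ ¬ Red spcOp A B) ∧
      ∃ A : Set ℕ, ¬ Eqv pcOp A ∅ ∧
        ∀ B C, Eqv pcOp B A → Eqv pcOp C A → Eqv spcOp B C := by
  obtain ⟨a, ha⟩ := exists_cut
  refine ⟨proper_spc, proper_pc, fun _ _ => red_mono, distinct, cut a, ?_, ?_⟩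
  · rintro ⟨⟨Ψ, hΨ, h⟩, _⟩
    refine ha ((re_comp' hΨ.1 (fun x => (x, 0)) (by fun_prop)).of_eq fun x => ?_)
    rw [h]
    refine ⟨fun h => ⟨0, h, by simp⟩, fun ⟨u, h1, h2⟩ => ?_⟩
    obtain rfl : u = 0 := Nat.eq_of_testBit_eq fun i => by simpa using h2 i
    exact h1
  · have k : ∀ B C, Red pcOp B (cut a) → Red pcOp C B → Red spcOp C B := by
      rintro B C ⟨Φ, hΦ, rfl⟩ ⟨Ψ, hΨ, rfl⟩
      have := key a id_mem hΦ
      rw [app_id] at this
      obtain ⟨Φ', hΦ', e⟩ := this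
      rw [e]
      exact key a hΦ' hΨ
    intro B C hB hC
    exact ⟨k _ _ hC.1 (proper_pc.2.2.1 _ _ _ hB.1 hC.2), k _ _ hB.1 (proper_pc.2.2.1 _ _ _ hC.1 hB.2)⟩

end Pool.Agent.Results.MP_9a6b8c_lc.PcContiguous
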